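import Pool.Agent.Helper61.FN.Goals

/-!
# FN-SUB: reduction to transcendence degree one
-/

set_option autoImplicit false

namespace Pool.Agent.Helper53.FN

open Pool.Agent.Helper61.FN

theorem goalSUB : G_SUB := by
  intro F K E _ _ _ _ x e₀ htop htr
  classical
  have h1 : AlgebraicIndepOn F id ({x e₀} : Set K) := by
    have := (algebraicIndependent_singleton_iff (R := F)
      (x := fun i : ({x e₀} : Set K) ↦ (id (i : K))) ⟨x e₀, rfl⟩).2 htr
    exact this
  obtain ⟨s, hs, hbas⟩ := exists_isTranscendenceBasis_superset h1
  have hmem : x e₀ ∈ s := hs rfl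
  refine ⟨IntermediateField.adjoin F (s \ {x e₀}), ?_, ?_⟩
  · rw [IntermediateField.transcendental_adjoin_iff]
    have h2 := hbas.1.transcendental_adjoin (s := {i : s | (i : K) ≠ x e₀})
      (i := ⟨x e₀, hmem⟩) (by simp)
    have h3 : (fun i : s ↦ (i : K)) '' {i : s | (i : K) ≠ x e₀} = s \ {x e₀} := by
      ext y
      constructor
      · rintro ⟨i, hi, rfl⟩
        exact ⟨i.2, hi⟩
      · rintro ⟨hy, hne⟩
        exact ⟨⟨y, hy⟩, hne, rfl⟩
    rw [h3] at h2
    exact h2
  · have halg : Algebra.IsAlgebraic (IntermediateField.adjoin F s) K := by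
      have h2 := hbas.isAlgebraic_field
      rw [Subtype.range_coe] at h2
      exact h2
    have hL : IntermediateField.restrictScalars F (IntermediateField.adjoin
        (IntermediateField.adjoin F (s \ {x e₀})) {x e₀}) = IntermediateField.adjoin F s := by
      rw [IntermediateField.adjoin_adjoin_left]
      congr 1
      rw [Set.sdiff_union_self]
      exact Set.union_eq_left.2 hs
    have halg2 : Algebra.IsAlgebraic (IntermediateField.restrictScalars F
        (IntermediateField.adjoin (IntermediateField.adjoin F (s \ {x e₀})) {x e₀})) K := by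
      rw [hL]
      exact halg
    have halg3 : Algebra.IsAlgebraic
        (IntermediateField.adjoin (IntermediateField.adjoin F (s \ {x e₀})) {x e₀}) K := halg2
    have hess : Algebra.EssFiniteType F K := by
      rw [← IntermediateField.fg_top_iff]
      refine ⟨Finset.univ.image x, ?_⟩
      rw [Finset.coe_image, Finset.coe_univ, Set.image_univ]
      exact htop
    have hess1 : Algebra.EssFiniteType (IntermediateField.restrictScalars F
        (IntermediateField.adjoin (IntermediateField.adjoin F (s \ {x e₀})) {x e₀})) K :=
      Algebra.EssFiniteType.of_comp F _ K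
    have hess2 : Algebra.EssFiniteType
        (IntermediateField.adjoin (IntermediateField.adjoin F (s \ {x e₀})) {x e₀}) K := hess1
    exact Algebra.finite_of_essFiniteType_of_isAlgebraic

end Pool.Agent.Helper53.FN
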